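import Pool.Agent.H82.EUC.Stmts5

/-!
Board `euc`, row GDC: crossings between different blocks.
-/

set_option autoImplicit false

namespace Pool.H16.EUC

open Pool.EUC

section
variable {V E : Type} (d : Dat V E)

theorem leM (m w w' : (V ⊕ E) × Bool) : d.dM m w ≤ d.dM m w' ↔
    max (d.prefM m - d.posW w) (-(d.prefM m - d.posW w)) ≤
      max (d.prefM m - d.posW w') (-(d.prefM m - d.posW w')) := by
  unfold Dat.dM
  rw [← abs_eq_max_neg, ← abs_eq_max_neg]
  exact_mod_cast Iff.rfl

theorem leW (m w w' : (V ⊕ E) × Bool) : d.dW m w ≤ d.dW m w' ↔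
    max (d.prefW m - d.posM w) (-(d.prefW m - d.posM w)) ≤
      max (d.prefW m - d.posM w') (-(d.prefW m - d.posM w')) := by
  unfold Dat.dW
  rw [← abs_eq_max_neg, ← abs_eq_max_neg]
  exact_mod_cast Iff.rfl

end

/-- GDC. -/
theorem GDC : GDC_S := by
  intro V E d hd b c i j hbc h1 h2
  rw [leM] at h1
  rw [leW] at h2
  rw [← not_le, ← not_le, leM, leW]
  rcases b with v | e <;> rcases c with v' | e'
  · exfalso
    have hne : v ≠ v' := fun h => hbc (by rw [h])
    have a1 := hd.Xs v v' hne
    have a2 := hd.Hs v v' hne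
    have a3 := hd.X4 v
    have a4 := hd.X4 v'
    have a5 := hd.L4 v
    have a6 := hd.L4 v'
    have a7 := hd.LH v
    have a8 := hd.LH v'
    cases i <;> cases j <;>
      simp only [Dat.prefM, Dat.posW, Dat.prefW, Dat.posM, Bool.not_false, Bool.not_true] at h1 h2 <;>
      omega
  · exfalso
    have a1 := hd.X4 v
    have a2 := hd.L4 v
    have a3 := hd.LH v
    have a4 := hd.Y4 e'
    have a5 := hd.XL4 e'
    have a6 := hd.XLR e'
    have a7 := hd.c1 v e'
    have a8 := hd.c2 v e'
    have a9 := hd.c3 v e'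
    have a10 := hd.c4 v e'
    cases i <;> cases j <;>
      simp only [Dat.prefM, Dat.posW, Dat.prefW, Dat.posM, Bool.not_false, Bool.not_true] at h1 h2 <;>
      omega
  · have a1 := hd.X4 v'
    have a2 := hd.L4 v'
    have a3 := hd.LH v'
    have a4 := hd.Y4 e
    have a5 := hd.XL4 e
    have a6 := hd.XLR e
    have a7 := hd.c1 v' e
    have a8 := hd.c2 v' e
    have a9 := hd.c3 v' e
    have a10 := hd.c4 v' e
    cases i <;> cases j <;>
      simp only [Dat.prefM, Dat.posW, Dat.prefW, Dat.posM, Bool.not_false, Bool.not_true] at h1 h2 ⊢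
    · refine ⟨⟨v', e, rfl, rfl, ?_, ?_, ?_, ?_⟩, ?_, ?_⟩ <;> omega
    · exfalso; omega
    · exfalso; omega
    · exfalso; omega
  · exfalso
    have hne : e ≠ e' := fun h => hbc (by rw [h])
    have a1 := hd.Ys e e' hne
    have a2 := hd.Rs e e' hne
    have a3 := hd.Y4 e
    have a4 := hd.Y4 e'
    have a5 := hd.XL4 e
    have a6 := hd.XL4 e'
    have a7 := hd.XLR e
    have a8 := hd.XLR e'
    cases i <;> cases j <;>
      simp only [Dat.prefM, Dat.posW, Dat.prefW, Dat.posM, Bool.not_false, Bool.not_true] at h1 h2 <;>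
      omega

end Pool.H16.EUC
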